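import Pool.Agent.H98.AO.BStmts
import Pool.Agent.H13.MA.Lib
import Pool.Agent.H78.CUR.NU

/-!
WFX: extensions of well-founded models are well-founded. STD: well-founded models have standard
natural numbers.
-/

set_option linter.unusedVariables false
set_option synthInstance.maxSize 100000

namespace AO

open SW

theorem wfx : WFXStmt := by
  intro M _ _ F G hG hW
  have hX := extF hG
  have hT : WellFounded (Relation.TransGen (fun x y : M => E x y)) := hW.transGen
  have key : ∀ b : M, Acc (fun x y : Ext F G => E x y) (mk F G b) := by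
    intro b
    induction b using hT.induction with
    | _ b ih =>
      refine Acc.intro _ fun x hx => ?_
      obtain ⟨d, s, h1, h2, rfl⟩ := (hX.mem_iff' x b).1 hx
      refine ih d ?_
      have e1 : E d (sing d) := mem_sing.2 rfl
      have e2 : E (sing d) (opair d s) := by rw [opair]; exact mem_upair.2 (Or.inl rfl)
      exact (Relation.TransGen.single e1).tail e2 |>.tail h1
  refine ⟨fun x => ?_⟩
  obtain ⟨a, rfl⟩ := Quot.exists_rep x
  exact key a

theorem std : STDStmt := by
  intro N _ _ hW x
  induction x using hW.induction with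
  | _ x ih =>
    intro hx
    rcases om_cases hx with rfl | ⟨k, hk, rfl⟩
    · exact ⟨0, rfl⟩
    · obtain ⟨n, rfl⟩ := ih k (mem_suc.2 (Or.inr rfl)) hk
      exact ⟨n + 1, rfl⟩

theorem nux : NUXStmt := by
  intro M _ _ F G hG _
  have hT := traF hG
  have hE := embF hG
  have h1 : ∀ n : ℕ, emb F G (nu n) = (AO.nu n : Ext F G) := by
    intro n
    induction n with
    | zero => exact hT.emp
    | succ n ih =>
      show emb F G (suc (CUR.nu n)) = suc (CUR.nu n)
      rw [hT.suc]
      exact congrArg suc ih
  have htup : ∀ (n : ℕ) (t : Fin (n + 1) → M),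
      emb F G (CUR.tupv n t) = CUR.tupv n (fun i => emb F G (t i)) := by
    intro n
    induction n with
    | zero => intro t; rfl
    | succ n ih =>
      intro t
      show emb F G (opair (t 0) (CUR.tupv n (fun i => t i.succ))) = opair _ _
      rw [hT.opair, ih]
  refine ⟨h1, fun hS x hx => ?_, fun R hR => ?_⟩
  · rw [← hT.om] at hx
    obtain ⟨y, hy, rfl⟩ := hE.trans _ _ hx
    obtain ⟨n, rfl⟩ := hS y hy
    exact ⟨n, h1 n⟩
  · obtain ⟨a, ha⟩ := hR
    refine ⟨emb F G a, fun t => ?_⟩
    rw [← ha t, ← hE.mem, htup]
    simp only [h1]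

end AO
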