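import Pool.Agent.H98.AO.ZStmts
import Pool.Agent.H78.CUR.NU

/-!
ZFW: countable well-founded models with codes of given relations between numbers
-/

set_option linter.unusedVariables false
set_option synthInstance.maxSize 100000

namespace AO

open SW

/-- pairs -/
noncomputable def zup (a b : ZFSet.{0}) : ZFSet.{0} := {a, b}

/-- ordered pairs -/
noncomputable def zop (a b : ZFSet.{0}) : ZFSet.{0} := zup (zup a a) (zup a b)

/-- numerals -/
noncomputable def znu : ℕ → ZFSet.{0}
  | 0 => ∅
  | n + 1 => insert (znu n) (znu n)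

/-- tuples -/
noncomputable def ztup : (n : ℕ) → (Fin (n + 1) → ZFSet.{0}) → ZFSet.{0}
  | 0, t => t 0
  | n + 1, t => zop (t 0) (ztup n (fun i => t i.succ))

/-- the formula `z = {a, b}` -/
def fUp : Fml 3 := .all (.imp (.imp (.imp (.mem 0 1) (.imp (.imp (.eq 0 2) .bot) (.eq 0 3)))
  (.imp (.imp (.imp (.imp (.eq 0 2) .bot) (.eq 0 3)) (.mem 0 1)) .bot)) .bot)

/-- the formula `z = a ∪ {a}` -/
def fSuc : Fml 2 := .all (.imp (.imp (.imp (.mem 0 1) (.imp (.imp (.eq 0 2) .bot) (.mem 0 2)))
  (.imp (.imp (.imp (.imp (.eq 0 2) .bot) (.mem 0 2)) (.mem 0 1)) .bot)) .bot)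

/-- the formula `z = ∅` -/
def fEmp : Fml 1 := .all (.imp (.mem 0 1) .bot)

theorem iff_imp {A B : Prop} : (((A → B) → (B → A) → False) → False) ↔ (A ↔ B) := by tauto

theorem zfw (hZ : ZFVStmt) : ZFWStmt := by
  intro R
  let S : ℕ → ZFSet.{0} := fun k => ZFSet.range (fun t : {t : Fin 5 → ℕ // t ∈ R k} =>
    ztup 4 (fun j => znu (t.1 j)))
  obtain ⟨M, iM, iZ, i, hc, hinj, hmem, hS, hel⟩ := hZ S
  have hup : ∀ a b : M, i (upair a b) = zup (i a) (i b) := by
    intro a b
    have h1 : Sat fUp ![upair a b, a, b] := by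
      intro w
      show ((E w (upair a b) → (w = a → False) → w = b) →
        (((w = a → False) → w = b) → E w (upair a b)) → False) → False
      rw [iff_imp, mem_upair]
      tauto
    have h2 := (hel _ _ _).1 h1
    refine ZFSet.ext fun w => ?_
    have h3 := h2 w
    have h4 : ((w ∈ i (upair a b) → (w = i a → False) → w = i b) →
        (((w = i a → False) → w = i b) → w ∈ i (upair a b)) → False) → False := h3
    rw [iff_imp] at h4
    rw [h4, zup, ZFSet.mem_pair]
    tauto
  have hsuc : ∀ a : M, i (suc a) = insert (i a) (i a) := by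
    intro a
    have h1 : Sat fSuc ![suc a, a] := by
      intro w
      show ((E w (suc a) → (w = a → False) → E w a) →
        (((w = a → False) → E w a) → E w (suc a)) → False) → False
      rw [iff_imp, mem_suc]
      tauto
    have h2 := (hel _ _ _).1 h1
    refine ZFSet.ext fun w => ?_
    have h3 := h2 w
    have h4 : ((w ∈ i (suc a) → (w = i a → False) → w ∈ i a) →
        (((w = i a → False) → w ∈ i a) → w ∈ i (suc a)) → False) → False := h3
    rw [iff_imp] at h4
    rw [h4, ZFSet.mem_insert_iff]
    tauto
  have hemp : i (emp : M) = ∅ := by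
    have h1 : Sat fEmp ![(emp : M)] := fun w => not_mem_emp w
    have h2 := (hel _ _ _).1 h1
    refine ZFSet.ext fun w => ?_
    have h3 : w ∈ i (emp : M) → False := h2 w
    exact ⟨fun h => absurd h h3, fun h => absurd h (ZFSet.notMem_empty w)⟩
  have hop : ∀ a b : M, i (opair a b) = zop (i a) (i b) := by
    intro a b
    rw [opair, hup, sing, hup, hup]
    rfl
  have hnu : ∀ n : ℕ, i (nu n) = znu n := by
    intro n
    induction n with
    | zero => exact hemp
    | succ n ih =>
      show i (suc (CUR.nu n)) = insert (znu n) (znu n)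
      rw [hsuc, ← ih]
  have htup : ∀ (n : ℕ) (t : Fin (n + 1) → M),
      i (CUR.tupv n t) = ztup n (fun j => i (t j)) := by
    intro n
    induction n with
    | zero => intro t; rfl
    | succ n ih =>
      intro t
      show i (opair (t 0) (CUR.tupv n (fun i => t i.succ))) = zop _ _
      rw [hop, ih]
  refine ⟨M, iM, iZ, hc, ?_, fun k => ?_⟩
  · have h1 : WellFounded (InvImage (fun x y : ZFSet.{0} => x ∈ y) i) :=
      InvImage.wf i ZFSet.mem_wf
    refine Subrelation.wf ?_ h1
    intro x y h
    exact (hmem x y).1 h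
  · obtain ⟨a, ha⟩ := hS k
    refine ⟨a, fun t => ?_⟩
    have e1 : ∀ t : Fin 5 → ℕ, i (CUR.tupv 4 (fun j => nu (t j))) = ztup 4 (fun j => znu (t j)) := by
      intro t
      rw [htup]
      simp only [hnu]
    rw [hmem, ha, ZFSet.mem_range]
    constructor
    · rintro ⟨t', ht'⟩
      rw [← e1] at ht'
      have h2 : ∀ (n : ℕ) (t t' : Fin (n + 1) → ℕ),
          (CUR.tupv n (fun j => (nu (t j) : M))) = CUR.tupv n (fun j => nu (t' j)) → t = t' := by
        intro n
        induction n with
        | zero =>
          intro t t' h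
          have h3 : (nu (t 0) : M) = nu (t' 0) := h
          funext j
          have hj : j = 0 := Fin.ext (by have := j.2; omega)
          rw [hj]
          exact CUR.nu_inj h3
        | succ n ih =>
          intro t t' h
          have h3 : opair (nu (t 0) : M) (CUR.tupv n (fun i => nu (t i.succ))) =
            opair (nu (t' 0)) (CUR.tupv n (fun i => nu (t' i.succ))) := h
          obtain ⟨h4, h5⟩ := opair_inj.1 h3
          have h6 := ih (fun j => t j.succ) (fun j => t' j.succ) h5
          funext j
          refine Fin.cases ?_ (fun j => ?_) j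
          · exact CUR.nu_inj h4
          · exact congrFun h6 j
      have h3 := h2 4 _ _ (hinj ht')
      rw [← h3]
      exact t'.2
    · intro ht
      exact ⟨⟨t, ht⟩, (e1 t).symm⟩

end AO
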